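import Pool.Agent.Y318.HR.Emb

/-!
# Herman rings of the quadratic Hénon map for almost every rotation number
-/

set_option autoImplicit false

namespace Pool.Agent.Y318.HR

open Pool.Agent.Helper649 Filter Topology MeasureTheory Set

lemma irrational_of_cond {θ G : ℝ} (h : ∀ k : ℤ, k ≠ 0 → 1 ≤ (G / θ) * k ^ 2 * ‖ch k θ - 1‖) :
    Irrational θ := by
  rintro ⟨q, hq⟩
  have hden : (q.den : ℤ) ≠ 0 := by exact_mod_cast q.den_nz
  have h1 := h (q.den : ℤ) hden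
  have h2 : ch (q.den : ℤ) θ = 1 := by
    have e : ((q.den : ℤ) : ℝ) * θ = ((q.num : ℤ) : ℝ) := by
      rw [← hq]
      have := Rat.den_mul_eq_num q
      have h3 : (((q.den : ℚ) * q : ℚ) : ℝ) = ((q.num : ℚ) : ℝ) := by rw [this]
      push_cast at h3 ⊢
      exact h3
    unfold ch
    have e2 : (2 * Real.pi * Complex.I * ((q.den : ℤ) : ℂ) * θ : ℂ) =
        ((q.num : ℤ) : ℂ) * (2 * Real.pi * Complex.I) := by
      have h3 : (((q.den : ℤ) : ℂ)) * (θ : ℂ) = ((q.num : ℤ) : ℂ) := by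
        exact_mod_cast congrArg (fun x : ℝ => (x : ℂ)) e
      linear_combination (2 * Real.pi * Complex.I) * h3
    rw [e2, Complex.exp_int_mul_two_pi_mul_I]
  rw [h2, sub_self, norm_zero, mul_zero] at h1
  linarith

lemma per_of_B {r M : ℝ} {w : ℝ → ℂ} (hw : B r M w) (t : ℝ) : w (t + 1) = w t := by
  obtain ⟨a, ha⟩ := hw
  have h1 := ha.2.2 (t + 1)
  have e : ∀ k : ℤ, a k * ch k (t + 1) = a k * ch k t := by
    intro k
    have e1 : ch k 1 = 1 := by simpa using ch_int k 1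
    rw [ch_add, e1, mul_one]
  simp only [e] at h1
  exact h1.unique (ha.2.2 t)

/-- Embedded rings of the second iterate, with a bound for their size. -/
theorem core : ∃ K : ℝ, 0 < K ∧ ∀ G : ℝ, 0 ≤ G → ∃ θ0 : ℝ, 0 < θ0 ∧ ∀ θ : ℝ, 0 < θ → θ < θ0 →
    (∀ k : ℤ, k ≠ 0 → 1 ≤ (G / θ) * k ^ 2 * ‖ch k θ - 1‖) → Ring θ 2 (K * θ) := by
  obtain ⟨w, hw, hper, hw0, hmin⟩ := exists_min
  have hcont : Continuous w := continuous_iff_continuousAt.2 fun t => (hw t).continuousAt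
  obtain ⟨δ, hδ, hgap⟩ := exists_gap hcont hmin
  obtain ⟨R, M, hR, hB⟩ := periodic_B w hw hper
  have hM0 : 0 ≤ M := hB.nonneg (by linarith)
  have hwM : ∀ t, ‖w t‖ ≤ M := fun t => hB.norm_le hR.le t
  have hdet : ∀ t, det w (fun t => w (-t) ^ 2) t = -2 * w 0 ^ 3 := by
    have hd : ∀ t, HasDerivAt (fun t => det w (fun t => w (-t) ^ 2) t) 0 t := by
      intro t
      have h1 : HasDerivAt (fun t => w (-t)) (-(w t ^ 2)) t := by
        have := (hw (-t)).scomp t (hasDerivAt_neg t)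
        refine this.congr_deriv ?_
        simp
      have h2 := ((h1.pow 3).add ((hw t).pow 3)).neg
      have e : (fun t => det w (fun t => w (-t) ^ 2) t) = fun t => -(w (-t) ^ 3 + w t ^ 3) := by
        funext t
        unfold det
        simp only [neg_neg]; ring
      rw [e]
      refine h2.congr_deriv ?_
      push_cast
      ring
    intro t
    have hdiff : Differentiable ℝ (fun t => det w (fun t => w (-t) ^ 2) t) :=
      fun t => (hd t).differentiableAt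
    have := is_const_of_deriv_eq_zero hdiff (fun t => (hd t).deriv) t 0
    rw [this]
    unfold det
    simp only [neg_zero]
    ring
  have hd0 : (-2 * w 0 ^ 3 : ℂ) ≠ 0 := mul_ne_zero (by norm_num) (pow_ne_zero 3 hw0)
  have hn0 : 0 < ‖w 0‖ := norm_pos_iff.mpr hw0
  refine ⟨M + 2, by linarith, fun G hG => ?_⟩
  obtain ⟨η, hη⟩ : ∃ η : ℝ, η = min (min (‖w 0‖ / 2) (δ / 3)) 1 := ⟨_, rfl⟩
  have hη0 : 0 < η := by rw [hη]; positivity
  have hη1 : η ≤ ‖w 0‖ / 2 := by rw [hη]; exact (min_le_left _ _).trans (min_le_left _ _)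
  have hη2 : η ≤ δ / 3 := by rw [hη]; exact (min_le_left _ _).trans (min_le_right _ _)
  have hη3 : η ≤ 1 := by rw [hη]; exact min_le_right _ _
  obtain ⟨θ0, hθ0, hK⟩ := kam_main (G := G) (η := η) hR hB hw (fun t => rfl) hd0 hdet hG hη0
  refine ⟨θ0, hθ0, fun θ h1 h2 hg => ?_⟩
  obtain ⟨r, hr, M', w1, hB1, heq, hcl⟩ := hK θ h1 h2 hg
  have hne : w1 0 ≠ 0 := by
    intro h0
    have := hcl 0
    rw [h0, zero_sub, norm_neg] at this
    linarith
  refine ring_emb hr hB1 h1 (irrational_of_cond hg) heq hne (fun p hp => ?_) (fun t => ?_)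
  · exact min_of_close hgap (by linarith) hcl (fun t => per_of_B hB1 t) hp
  · have h3 : ‖w1 t‖ < M + 2 := by
      have e : w1 t = (w1 t - w t) + w t := by ring
      rw [e]
      calc ‖(w1 t - w t) + w t‖ ≤ ‖w1 t - w t‖ + ‖w t‖ := norm_add_le _ _
        _ ≤ η + M := add_le_add (hcl t) (hwM t)
        _ < M + 2 := by linarith
    rw [mul_comm (M + 2)]
    gcongr

/-- Diophantine of exponent two -/
def Dio (θ : ℝ) : Prop := ∃ γ : ℝ, 0 < γ ∧ ∀ (m : ℕ) (j : ℤ), 1 ≤ m → γ / m ^ 2 ≤ |m * θ - j|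

lemma Dio.irrational {θ : ℝ} (h : Dio θ) : Irrational θ := by
  obtain ⟨γ, hγ, h⟩ := h
  rintro ⟨q, hq⟩
  have hden : 1 ≤ q.den := q.pos
  have h1 := h q.den q.num hden
  have e : (q.den : ℝ) * θ - q.num = 0 := by
    rw [← hq]
    have := Rat.den_mul_eq_num q
    have h3 : (((q.den : ℚ) * q : ℚ) : ℝ) = ((q.num : ℚ) : ℝ) := by rw [this]
    push_cast at h3
    rw [h3, sub_self]
  rw [e, abs_zero] at h1
  have : 0 < γ / (q.den : ℝ) ^ 2 := by
    have : (0 : ℝ) < q.den := by exact_mod_cast hden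
    positivity
  linarith

/-- the arithmetic condition for `θ / n` -/
lemma cond_of_dio {α γ : ℝ} (hα : 0 < α) (hγ : 0 < γ)
    (h : ∀ (m : ℕ) (j : ℤ), 1 ≤ m → γ / m ^ 2 ≤ |m * α - j|) {n : ℕ} (hn : 1 ≤ n) :
    ∀ k : ℤ, k ≠ 0 → 1 ≤ ((α / (4 * γ)) / (α / n)) * k ^ 2 * ‖ch k (α / n) - 1‖ := by
  have hn0 : (0 : ℝ) < n := by exact_mod_cast hn
  have key : ∀ m : ℕ, 1 ≤ m →
      1 ≤ ((α / (4 * γ)) / (α / n)) * (m : ℝ) ^ 2 * ‖ch (m : ℤ) (α / n) - 1‖ := by
    intro m hm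
    have hm0 : (0 : ℝ) < m := by exact_mod_cast hm
    have h1 := norm_ch_sub_one_lb (m : ℤ) (α / n)
    have h2 := h m (n * round (((m : ℤ) : ℝ) * (α / n))) hm
    have h3 : (m : ℝ) * α - ((n * round (((m : ℤ) : ℝ) * (α / n)) : ℤ) : ℝ) =
        n * (((m : ℤ) : ℝ) * (α / n) - round (((m : ℤ) : ℝ) * (α / n))) := by
      push_cast
      field_simp
    rw [h3, abs_mul, abs_of_pos hn0] at h2
    have h4 : 4 * (γ / m ^ 2 / n) ≤ ‖ch (m : ℤ) (α / n) - 1‖ := by
      refine le_trans ?_ h1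
      have : γ / m ^ 2 / n ≤
          |((m : ℤ) : ℝ) * (α / n) - round (((m : ℤ) : ℝ) * (α / n))| := by
        rw [div_le_iff₀ hn0, mul_comm _ (n : ℝ)]
        exact h2
      linarith
    calc (1 : ℝ) = ((α / (4 * γ)) / (α / n)) * (m : ℝ) ^ 2 * (4 * (γ / m ^ 2 / n)) := by
          field_simp
      _ ≤ _ := by gcongr
  intro k hk
  rcases Int.natAbs_eq k with hk1 | hk1
  · have h1 : 1 ≤ k.natAbs := Int.natAbs_pos.2 hk
    have h2 := key k.natAbs h1
    rw [← hk1] at h2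
    have e : ((k.natAbs : ℕ) : ℝ) ^ 2 = (k : ℝ) ^ 2 := by
      rw [Nat.cast_natAbs, Int.cast_abs, sq_abs]
    rw [e] at h2
    exact h2
  · have h1 : 1 ≤ k.natAbs := Int.natAbs_pos.2 hk
    have h2 := key k.natAbs h1
    have e : ((k.natAbs : ℕ) : ℝ) ^ 2 = (k : ℝ) ^ 2 := by
      rw [Nat.cast_natAbs, Int.cast_abs, sq_abs]
    rw [e, ← norm_ch_neg_sub_one, ← hk1] at h2
    exact h2

lemma iter_ring {θ ρ : ℝ} (n : ℕ) (N : ℤ) (h : Ring θ 2 ρ) :
    Ring (n * θ + N) (2 * n) ρ := by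
  obtain ⟨h, hh, φ, h1, h2, h3, h4, h5⟩ := h
  refine ⟨h, hh, φ, h1, h2, h3, ?_, h5⟩
  have hstrip : ∀ (z : ℂ) (s : ℝ), |z.im| < h → |(z + s).im| < h := by
    intro z s hz
    rw [Complex.add_im, Complex.ofReal_im, add_zero]; exact hz
  have hper : ∀ (m : ℤ) (y : ℂ), |y.im| < h → φ (y + m) = φ y := by
    intro m y hy
    induction m using Int.induction_on with
    | zero => simp
    | succ i ih =>
      rw [← ih]
      have e : y + ((i + 1 : ℤ) : ℂ) = (y + (i : ℤ)) + 1 := by push_cast; ring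
      rw [e, h2]
      have := hstrip y ((i : ℤ) : ℝ) hy
      simpa using this
    | pred i ih =>
      rw [← ih, ← h2 (y + _)]
      · congr 1
        push_cast; ring
      · have := hstrip y ((-i - 1 : ℤ) : ℝ) hy
        rw [Complex.ofReal_intCast] at this
        exact this
  have hit : ∀ (m : ℕ) (z : ℂ), |z.im| < h → (H2^[2])^[m] (φ z) = φ (z + (m * θ : ℝ)) := by
    intro m
    induction m with
    | zero => intro z hz; simp
    | succ i ih =>
      intro z hz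
      rw [Function.iterate_succ_apply', ih z hz, h4 _ (hstrip z _ hz)]
      congr 1
      push_cast; ring
  intro z hz
  rw [Function.iterate_mul, hit n z hz]
  have e : z + ((n * θ + N : ℝ) : ℂ) = (z + ((n * θ : ℝ) : ℂ)) + (N : ℤ) := by push_cast; ring
  rw [e, hper _ _ (hstrip z _ hz)]

/-- Every Diophantine number of exponent two is a rotation number, near the origin. -/
theorem rings_dio {θ : ℝ} (hθ : Dio θ) {ρ : ℝ} (hρ : 0 < ρ) :
    ∃ n0 : ℕ, ∀ n : ℕ, n0 ≤ n → Ring θ (2 * n) ρ := by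
  obtain ⟨γ, hγ, hd⟩ := hθ
  obtain ⟨K, hK, hcore⟩ := core
  obtain ⟨N, hN⟩ : ∃ N : ℤ, 0 < θ + N := by
    obtain ⟨N, hN⟩ := exists_int_gt (-θ)
    exact ⟨N, by linarith⟩
  obtain ⟨α, hα⟩ : ∃ α : ℝ, α = θ + N := ⟨_, rfl⟩
  have hα0 : 0 < α := by rw [hα]; exact hN
  have hdα : ∀ (m : ℕ) (j : ℤ), 1 ≤ m → γ / m ^ 2 ≤ |m * α - j| := by
    intro m j hm
    have := hd m (j - m * N) hm
    have e : (m : ℝ) * θ - ((j - m * N : ℤ) : ℝ) = m * α - j := by
      rw [hα]; push_cast; ring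
    rw [e] at this
    exact this
  obtain ⟨θ0, hθ0, hr⟩ := hcore (α / (4 * γ)) (by positivity)
  obtain ⟨n0, hn0⟩ := exists_nat_gt (max (α / θ0) (K * α / ρ))
  refine ⟨max n0 1, fun n hn => ?_⟩
  have hn1 : 1 ≤ n := (le_max_right _ _).trans hn
  have hnn : n0 ≤ n := (le_max_left _ _).trans hn
  have hnr : (0 : ℝ) < n := by exact_mod_cast hn1
  have hnn' : (n0 : ℝ) ≤ n := by exact_mod_cast hnn
  have h1 : α / n < θ0 := by
    rw [div_lt_iff₀ hnr]
    have := (le_max_left (α / θ0) (K * α / ρ)).trans_lt (hn0.trans_le hnn')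
    rw [div_lt_iff₀ hθ0] at this
    linarith
  have h2 : K * (α / n) ≤ ρ := by
    have := (le_max_right (α / θ0) (K * α / ρ)).trans_lt (hn0.trans_le hnn')
    rw [div_lt_iff₀ hρ] at this
    rw [← mul_div_assoc, div_le_iff₀ hnr]
    linarith
  have h3 := hr (α / n) (by positivity) h1 (cond_of_dio hα0 hγ hdα hn1)
  have h4 := iter_ring n (-N) h3
  have e : (n : ℝ) * (α / n) + ((-N : ℤ) : ℝ) = θ := by
    rw [mul_div_cancel₀ _ hnr.ne', hα]; push_cast; ring
  rw [e] at h4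
  obtain ⟨h, hh, φ, a1, a2, a3, a4, a5⟩ := h4
  exact ⟨h, hh, φ, a1, a2, a3, a4, fun z hz => (a5 z hz).trans_le h2⟩

lemma exists_lower {f : ℕ → ℝ} (hf : ∀ m, 1 ≤ m → 0 < f m) (N : ℕ) :
    ∃ γ : ℝ, 0 < γ ∧ ∀ m, 1 ≤ m → m < N → γ ≤ f m := by
  induction N with
  | zero => exact ⟨1, one_pos, fun m _ h => absurd h (by omega)⟩
  | succ N ih =>
    obtain ⟨γ, hγ, h⟩ := ih
    rcases Nat.eq_zero_or_pos N with h0 | h0
    · exact ⟨γ, hγ, fun m h1 h2 => absurd h2 (by omega)⟩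
    · refine ⟨min γ (f N), lt_min hγ (hf N h0), fun m h1 h2 => ?_⟩
      rcases Nat.lt_succ_iff_lt_or_eq.1 h2 with h3 | h3
      · exact (min_le_left _ _).trans (h m h1 h3)
      · rw [h3]; exact min_le_right _ _

/-- Almost every number is Diophantine of exponent two. -/
theorem ae_dio : ∀ᵐ θ : ℝ, Dio θ := by
  have h1 : ∀ᵐ θ : ℝ, ¬ LiouvilleWith 3 θ := by
    filter_upwards [ae_not_liouvilleWith] with θ h
    exact h 3 (by norm_num)
  have h2 : ∀ᵐ θ : ℝ, Irrational θ := (Set.countable_range _).ae_notMem volume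
  filter_upwards [h1, h2] with θ hθ hirr
  unfold LiouvilleWith at hθ
  push Not at hθ
  have h3 := hθ 1
  obtain ⟨n0, hn0⟩ := Filter.eventually_atTop.1 h3
  have hpos : ∀ m : ℕ, 1 ≤ m → 0 < |m * θ - round (m * θ)| := by
    intro m hm
    rw [abs_pos, sub_ne_zero]
    intro h
    have h4 : Irrational ((m : ℝ) * θ) := hirr.natCast_mul (m := m) (by omega)
    exact h4 ⟨(round (m * θ) : ℤ), by push_cast; exact h.symm⟩
  obtain ⟨γ, hγ, hl⟩ := exists_lower hpos n0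
  refine ⟨min γ 1, lt_min hγ one_pos, fun m j hm => ?_⟩
  have hm0 : (0 : ℝ) < m := by exact_mod_cast hm
  have hm1 : (1 : ℝ) ≤ m := by exact_mod_cast hm
  rcases lt_or_ge m n0 with h | h
  · calc min γ 1 / (m : ℝ) ^ 2 ≤ min γ 1 := div_le_self (by positivity) (one_le_pow₀ hm1)
      _ ≤ γ := min_le_left _ _
      _ ≤ |m * θ - round (m * θ)| := hl m hm h
      _ ≤ _ := round_le _ _
  · have h4 : θ ≠ (j : ℝ) / (m : ℝ) := by
      intro h5
      exact hirr ⟨(j : ℚ) / m, by push_cast; exact h5.symm⟩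
    have h5 := hn0 m h j h4
    have e : (m : ℝ) * θ - j = m * (θ - j / m) := by field_simp
    rw [e, abs_mul, abs_of_pos hm0]
    have h6 : 1 / (m : ℝ) ^ 3 ≤ |θ - j / m| := by
      have h7 : (m : ℝ) ^ (3 : ℝ) = (m : ℝ) ^ (3 : ℕ) := by
        rw [← Real.rpow_natCast]; norm_num
      first
        | exact h5
        | (rw [h7] at h5; exact h5)
    calc min γ 1 / (m : ℝ) ^ 2 ≤ 1 / (m : ℝ) ^ 2 := by gcongr; exact min_le_right _ _
      _ = (m : ℝ) * (1 / (m : ℝ) ^ 3) := by field_simp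
      _ ≤ (m : ℝ) * |θ - j / m| := by gcongr

theorem measure_two : ∃ C K : ℝ, ∀ x : ℝ, 0 < x →
    volume {θ : ℝ | θ ∈ Ioo 0 x ∧ ¬ (Irrational θ ∧ Ring θ 2 (K * θ))} ≤ ENNReal.ofReal (C * x ^ 2) := by
  obtain ⟨K, hK, hcore⟩ := core
  obtain ⟨θ0, hθ0, hr⟩ := hcore 1 zero_le_one
  obtain ⟨C, hC, hbad⟩ := bad_measure
  refine ⟨max C (1 / θ0), K, fun x hx => ?_⟩
  rcases lt_or_ge x θ0 with h | h
  · refine le_trans (measure_mono ?_) ((hbad x hx).trans ?_)
    · rintro θ ⟨h1, h2⟩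
      refine ⟨h1, fun hg => h2 ?_⟩
      exact ⟨irrational_of_cond hg, hr θ h1.1 (h1.2.trans h) hg⟩
    · apply ENNReal.ofReal_le_ofReal
      gcongr
      exact le_max_left _ _
  · refine le_trans (measure_mono (t := Ioo 0 x) fun θ h1 => h1.1) ?_
    rw [Real.volume_Ioo, sub_zero]
    apply ENNReal.ofReal_le_ofReal
    calc x = 1 / θ0 * (θ0 * x) := by field_simp
      _ ≤ 1 / θ0 * (x * x) := by gcongr
      _ ≤ max C (1 / θ0) * (x * x) := by gcongr; exact le_max_right _ _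
      _ = _ := by ring

end Pool.Agent.Y318.HR
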