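import Pool.Agent.Y318.HR.Per

/-!
# Embedded rings from solutions of the functional equation
-/

set_option autoImplicit false

namespace Pool.Agent.Y318.HR

open Pool.Agent.Helper649 Filter Topology MeasureTheory Set

/-- an embedded ring with rotation number `θ` in the ball of radius `ρ` for the `n`-th iterate -/
def Ring (θ : ℝ) (n : ℕ) (ρ : ℝ) : Prop :=
  ∃ h : ℝ, 0 < h ∧ ∃ φ : ℂ → ℂ × ℂ,
    DifferentiableOn ℂ φ {z : ℂ | |z.im| < h} ∧
    (∀ z : ℂ, |z.im| < h → φ (z + 1) = φ z) ∧
    (∀ z z' : ℂ, |z.im| < h → |z'.im| < h → φ z = φ z' → ∃ m : ℤ, z' = z + m) ∧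
    (∀ z : ℂ, |z.im| < h → H2^[n] (φ z) = φ (z + θ)) ∧
    ∀ z : ℂ, |z.im| < h → ‖φ z‖ < ρ

/-- the extension, with coefficients -/
lemma extend' {r M : ℝ} {a : ℤ → ℂ} {w : ℝ → ℂ} (hr : 1 < r) (hw : BC r M a w) :
    ∃ h : ℝ, 0 < h ∧ (∀ z : ℂ, |z.im| < h → Summable (fun k : ℤ => ‖a k * cc k z‖)) ∧
      DifferentiableOn ℂ (fun z => ∑' k : ℤ, a k * cc k z) {z : ℂ | |z.im| < h} := by
  obtain ⟨ha1, ha2, ha3⟩ := hw
  have hπ := Real.pi_pos
  obtain ⟨h, hh⟩ : ∃ h : ℝ, h = Real.log r / (2 * Real.pi) := ⟨_, rfl⟩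
  have hh0 : 0 < h := by rw [hh]; have := Real.log_pos hr; positivity
  have hexp : Real.exp (2 * Real.pi * h) = r := by
    rw [hh]
    have : 2 * Real.pi * (Real.log r / (2 * Real.pi)) = Real.log r := by field_simp
    rw [this, Real.exp_log (by linarith)]
  have hb : ∀ (k : ℤ) (z : ℂ), |z.im| < h → ‖a k * cc k z‖ ≤ ‖a k‖ * r ^ k.natAbs := by
    intro k z hz
    have := norm_cc_le k z h hz
    rw [hexp] at this
    rw [norm_mul]
    gcongr
  refine ⟨h, hh0, fun z hz => ?_, ?_⟩
  · exact Summable.of_nonneg_of_le (fun k => norm_nonneg _) (fun k => hb k z hz) ha1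
  · refine Complex.differentiableOn_tsum_of_summable_norm ha1 (fun k => ?_) (strip_open h)
      (fun k z hz => hb k z hz)
    apply Differentiable.differentiableOn
    unfold cc
    fun_prop

lemma cc_add (k : ℤ) (y z : ℂ) : cc k (y + z) = cc k y * cc k z := by
  unfold cc
  rw [← Complex.exp_add]
  congr 1
  ring

theorem ring_emb {r M θ ρ : ℝ} {w : ℝ → ℂ} (hr : 1 < r) (hw : B r M w) (hθ : 0 < θ)
    (hirr : Irrational θ)
    (heq : ∀ t, w (t + θ) - w t = θ * w (-t) ^ 2) (hne : w 0 ≠ 0)
    (hmin : ∀ p, (∀ t, w (t + p) = w t) → ∃ m : ℤ, p = m)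
    (hρ : ∀ t, θ * ‖w t‖ < ρ) : Ring θ 2 ρ := by
  obtain ⟨a, ha⟩ := hw
  obtain ⟨h, hh0, hsum, hdiff⟩ := extend' hr ha
  have hser := ha.2.2
  set W : ℂ → ℂ := fun z => ∑' k : ℤ, a k * cc k z with hW
  have hWt : ∀ t : ℝ, W t = w t := by
    intro t
    simp only [hW, cc_ofReal]
    exact (hser t).tsum_eq
  have hW2 : ∀ z, W (z + 1) = W z := by
    intro z
    simp only [hW, cc_one]
  have hneg : ∀ z : ℂ, |z.im| < h → |(-z).im| < h := by
    intro z hz
    rw [Complex.neg_im, abs_neg]; exact hz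
  have hadd : ∀ z : ℂ, ∀ s : ℝ, |z.im| < h → |(z + s).im| < h := by
    intro z s hz
    rw [Complex.add_im, Complex.ofReal_im, add_zero]; exact hz
  have hWm : ∀ z, W (z - 1) = W z := by
    intro z
    have := hW2 (z - 1)
    rw [sub_add_cancel] at this
    exact this.symm
  have hθc : (θ : ℂ) ≠ 0 := by exact_mod_cast hθ.ne'
  have hWneg : DifferentiableOn ℂ (fun z => W (-z)) {z : ℂ | |z.im| < h} := by
    refine hdiff.comp (differentiable_neg.differentiableOn) (fun z hz => hneg z hz)
  have hWadd : DifferentiableOn ℂ (fun z => W (z + θ)) {z : ℂ | |z.im| < h} := by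
    refine hdiff.comp ((differentiable_id.add_const _).differentiableOn)
      (fun z hz => hadd z θ hz)
  have hfun : ∀ z : ℂ, |z.im| < h → W (z + θ) - W z = θ * W (-z) ^ 2 := by
    have a1 : AnalyticOnNhd ℂ (fun z => W (z + θ) - W z) {z : ℂ | |z.im| < h} :=
      (hWadd.sub hdiff).analyticOnNhd (strip_open h)
    have a2 : AnalyticOnNhd ℂ (fun z => θ * W (-z) ^ 2) {z : ℂ | |z.im| < h} :=
      ((hWneg.pow 2).const_mul _).analyticOnNhd (strip_open h)
    have := AnalyticOnNhd.eqOn_of_preconnected_of_frequently_eq a1 a2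
      (strip_convex h).isPreconnected
      (z₀ := 0) (by simpa using hh0) (freq_real (P := fun z => W (z + θ) - W z = θ * W (-z) ^ 2)
        (fun t => by
          have e1 : ((t : ℂ) + θ) = ((t + θ : ℝ) : ℂ) := by push_cast; ring
          have e2 : (-(t : ℂ)) = ((-t : ℝ) : ℂ) := by push_cast; ring
          rw [e1, e2, hWt, hWt, hWt]
          exact heq t))
    intro z hz
    exact this hz
  set φ : ℂ → ℂ × ℂ := fun z => (θ * W z, -(θ * W (-z))) with hφ
  have hφd : DifferentiableOn ℂ φ {z : ℂ | |z.im| < h} :=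
    (hdiff.const_mul _).prodMk ((hWneg.const_mul _).neg)
  have hφ1 : ∀ z : ℂ, φ (z + 1) = φ z := by
    intro z
    have e : -(z + 1) = -z - 1 := by ring
    simp only [hφ, e, hWm, hW2]
  have hφH : ∀ z : ℂ, |z.im| < h → H2^[2] (φ z) = φ (z + θ) := by
    intro z hz
    have f1 := hfun z hz
    have hz2 : |(-(z + θ)).im| < h := hneg _ (hadd z θ hz)
    have f2 := hfun (-(z + θ)) hz2
    have e1 : -(z + θ) + θ = -z := by ring
    rw [e1, neg_neg] at f2
    have k1 : θ * W z + (-(θ * W (-z))) ^ 2 = θ * W (z + θ) := by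
      linear_combination -(θ : ℂ) * f1
    have k2 : -(θ * W (-z)) + (θ * W (z + θ)) ^ 2 = -(θ * W (-(z + θ))) := by
      linear_combination -(θ : ℂ) * f2
    simp only [Function.iterate_succ, Function.iterate_zero, Function.comp_apply, id, H2, hφ]
    rw [k1, k2]
  -- translates
  have hH2inj : Function.Injective H2 := by
    rintro ⟨x, y⟩ ⟨x', y'⟩ hxy
    simp only [H2, Prod.mk.injEq] at hxy
    obtain ⟨rfl, h2⟩ := hxy
    rw [add_left_inj] at h2
    rw [h2]
  have hH22 : Function.Injective (H2^[2]) := hH2inj.iterate 2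
  have htrans : ∀ z z' : ℂ, |z.im| < h → |z'.im| < h → φ z = φ z' →
      ∀ t : ℝ, φ (z + t) = φ (z' + t) := by
    intro z z' hz hz' hzz
    have s1 : ∀ t : ℝ, φ (z + t) = φ (z' + t) → φ (z + (t + θ : ℝ)) = φ (z' + (t + θ : ℝ)) := by
      intro t ht
      have e1 : z + ((t + θ : ℝ) : ℂ) = z + t + θ := by push_cast; ring
      have e2 : z' + ((t + θ : ℝ) : ℂ) = z' + t + θ := by push_cast; ring
      rw [e1, e2, ← hφH _ (hadd z t hz), ← hφH _ (hadd z' t hz'), ht]
    have s2 : ∀ t : ℝ, φ (z + t) = φ (z' + t) → φ (z + (t - θ : ℝ)) = φ (z' + (t - θ : ℝ)) := by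
      intro t ht
      apply hH22
      rw [hφH _ (hadd z _ hz), hφH _ (hadd z' _ hz')]
      have e1 : z + ((t - θ : ℝ) : ℂ) + θ = z + t := by push_cast; ring
      have e2 : z' + ((t - θ : ℝ) : ℂ) + θ = z' + t := by push_cast; ring
      rw [e1, e2, ht]
    have s3 : ∀ t : ℝ, φ (z + t) = φ (z' + t) → φ (z + (t + 1 : ℝ)) = φ (z' + (t + 1 : ℝ)) := by
      intro t ht
      have e1 : z + ((t + 1 : ℝ) : ℂ) = z + t + 1 := by push_cast; ring
      have e2 : z' + ((t + 1 : ℝ) : ℂ) = z' + t + 1 := by push_cast; ring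
      rw [e1, e2, hφ1, hφ1, ht]
    have s4 : ∀ t : ℝ, φ (z + t) = φ (z' + t) → φ (z + (t - 1 : ℝ)) = φ (z' + (t - 1 : ℝ)) := by
      intro t ht
      rw [← hφ1, ← hφ1 (z' + _)]
      have e1 : z + ((t - 1 : ℝ) : ℂ) + 1 = z + t := by push_cast; ring
      have e2 : z' + ((t - 1 : ℝ) : ℂ) + 1 = z' + t := by push_cast; ring
      rw [e1, e2, ht]
    have hin : ∀ s ∈ AddSubgroup.closure {θ, (1 : ℝ)}, ∀ t : ℝ, φ (z + t) = φ (z' + t) →
        φ (z + (t + s : ℝ)) = φ (z' + (t + s : ℝ)) := by
      intro s hs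
      induction hs using AddSubgroup.closure_induction'' with
      | mem x hx =>
        intro t ht
        rcases hx with rfl | hx
        · exact s1 t ht
        · rw [mem_singleton_iff] at hx
          subst hx
          exact s3 t ht
      | neg_mem x hx =>
        intro t ht
        rw [← sub_eq_add_neg]
        rcases hx with rfl | hx
        · exact s2 t ht
        · rw [mem_singleton_iff] at hx
          subst hx
          exact s4 t ht
      | zero =>
        intro t ht
        rw [add_zero]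
        exact ht
      | add x y _ _ hx hy =>
        intro t ht
        rw [← add_assoc]
        exact hy _ (hx t ht)
    have hdense : Dense ((AddSubgroup.closure {θ, (1 : ℝ)} : AddSubgroup ℝ) : Set ℝ) := by
      rw [dense_addSubgroupClosure_pair_iff, div_one]
      exact hirr
    have hcont : ∀ y : ℂ, |y.im| < h → Continuous (fun t : ℝ => φ (y + t)) := by
      intro y hy
      refine continuous_iff_continuousAt.2 fun t => ?_
      have h1 : ContinuousAt φ (y + t) :=
        (hφd.differentiableAt ((strip_open h).mem_nhds (hadd y t hy))).continuousAt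
      have h2 : ContinuousAt (fun t : ℝ => y + (t : ℂ)) t := by fun_prop
      exact ContinuousAt.comp (g := φ) (f := fun t : ℝ => y + (t : ℂ)) h1 h2
    have hclosed : IsClosed {t : ℝ | φ (z + t) = φ (z' + t)} :=
      isClosed_eq (hcont z hz) (hcont z' hz')
    intro t
    have hmem : t ∈ closure ((AddSubgroup.closure {θ, (1 : ℝ)} : AddSubgroup ℝ) : Set ℝ) :=
      hdense t
    refine (closure_minimal ?_ hclosed) hmem
    intro s hs
    have := hin s hs 0 (by simpa using hzz)
    rw [zero_add] at this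
    exact this
  have hinj : ∀ z z' : ℂ, |z.im| < h → |z'.im| < h → φ z = φ z' → ∃ m : ℤ, z' = z + m := by
    intro z z' hz hz' hzz
    have h1 : ∀ t : ℝ, W (z + t) = W (z' + t) := by
      intro t
      have := htrans z z' hz hz' hzz t
      simp only [hφ, Prod.mk.injEq] at this
      exact mul_left_cancel₀ hθc this.1
    have hcoef : ∀ k : ℤ, a k * (cc k z - cc k z') = 0 := by
      have hs1 := hsum z hz
      have hs2 := hsum z' hz'
      have hs : Summable (fun k : ℤ => ‖a k * (cc k z - cc k z')‖) := by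
        refine Summable.of_nonneg_of_le (fun k => norm_nonneg _) (fun k => ?_) (hs1.add hs2)
        rw [mul_sub]
        exact norm_sub_le _ _
      refine fun k => coef_unique (c := fun k => a k * (cc k z - cc k z')) hs (fun t => ?_) k
      have e1 := h1 t
      simp only [hW] at e1
      have e2 : ∀ k : ℤ, a k * (cc k z - cc k z') * ch k t =
          a k * cc k (z + t) - a k * cc k (z' + t) := by
        intro k
        rw [cc_add, cc_add, cc_ofReal]
        ring
      simp only [e2]
      rw [((hsum _ (hadd z t hz)).of_norm).tsum_sub ((hsum _ (hadd z' t hz')).of_norm), e1,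
        sub_self]
    -- some nonzero frequency
    have hk : ∃ k : ℤ, k ≠ 0 ∧ a k ≠ 0 := by
      by_contra hcon
      push Not at hcon
      have hconst : ∀ t, w t = a 0 := by
        intro t
        have h2 : HasSum (fun k : ℤ => a k * ch k t) (a 0 * ch 0 t) := by
          refine hasSum_single 0 (fun k hk => ?_)
          rw [hcon k hk, zero_mul]
        rw [ch_zero, mul_one] at h2
        exact (hser t).unique h2
      have h3 := heq 0
      rw [hconst (0 + θ), hconst 0, sub_self] at h3
      rw [neg_zero] at h3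
      have h4 : w 0 ^ 2 = 0 := by
        rcases mul_eq_zero.mp h3.symm with h5 | h5
        · exact absurd h5 hθc
        · exact h5
      exact hne (pow_eq_zero_iff (two_ne_zero) |>.mp h4)
    have hexp : ∀ k : ℤ, a k ≠ 0 → cc k (z' - z) = 1 := by
      intro k hk
      have h2 := (mul_eq_zero.1 (hcoef k)).resolve_left hk
      have h3 : cc k z' = cc k z * cc k (z' - z) := by
        rw [← cc_add]; congr 1; ring
      have h4 : cc k z ≠ 0 := by unfold cc; exact Complex.exp_ne_zero _
      rw [h3] at h2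
      have h5 : cc k z * (1 - cc k (z' - z)) = 0 := by linear_combination h2
      have h6 := (mul_eq_zero.1 h5).resolve_left h4
      exact (sub_eq_zero.1 h6).symm
    obtain ⟨k, hk0, hka⟩ := hk
    have hq : ∃ q : ℝ, z' - z = q := by
      have h2 := hexp k hka
      unfold cc at h2
      obtain ⟨n, hn⟩ := Complex.exp_eq_one_iff.1 h2
      have hk0' : (k : ℂ) ≠ 0 := by exact_mod_cast hk0
      have hpi : (Real.pi : ℂ) ≠ 0 := by exact_mod_cast Real.pi_ne_zero
      refine ⟨(n : ℝ) / k, ?_⟩
      have h3 : (2 * Real.pi * Complex.I : ℂ) * (k * (z' - z)) = (2 * Real.pi * Complex.I) * n := by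
        linear_combination hn
      have h4 : (2 * Real.pi * Complex.I : ℂ) ≠ 0 :=
        mul_ne_zero (mul_ne_zero two_ne_zero hpi) Complex.I_ne_zero
      have h5 := mul_left_cancel₀ h4 h3
      push_cast
      rw [eq_div_iff hk0', ← h5]
      ring
    obtain ⟨q, hq⟩ := hq
    have hper : ∀ t, w (t + q) = w t := by
      intro t
      have h2 : HasSum (fun k : ℤ => a k * ch k t) (w (t + q)) := by
        have h3 := hser (t + q)
        have e : ∀ k : ℤ, a k * ch k (t + q) = a k * ch k t := by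
          intro k
          by_cases hk : a k = 0
          · rw [hk, zero_mul, zero_mul]
          · have h4 := hexp k hk
            rw [hq, cc_ofReal] at h4
            rw [ch_add, h4, mul_one]
        simpa only [e] using h3
      exact h2.unique (hser t)
    obtain ⟨m, hm⟩ := hmin q hper
    refine ⟨m, ?_⟩
    rw [hm] at hq
    push_cast at hq
    linear_combination hq
  -- thin strip
  have hφt : ∀ t : ℝ, ‖φ t‖ < ρ := by
    intro t
    have e2 : (-(t : ℂ)) = ((-t : ℝ) : ℂ) := by push_cast; ring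
    simp only [hφ]
    rw [e2, hWt, hWt, Prod.norm_def, max_lt_iff]
    constructor
    · rw [norm_mul, Complex.norm_real, Real.norm_eq_abs, abs_of_pos hθ]
      exact hρ t
    · rw [norm_neg, norm_mul, Complex.norm_real, Real.norm_eq_abs, abs_of_pos hθ]
      exact hρ (-t)
  have hthin : ∃ h' : ℝ, 0 < h' ∧ h' ≤ h ∧ ∀ z : ℂ, |z.im| < h' → ‖φ z‖ < ρ := by
    have hK : IsCompact ((fun t : ℝ => (t : ℂ)) '' Icc 0 1) :=
      isCompact_Icc.image Complex.continuous_ofReal
    have hU : IsOpen ({z : ℂ | |z.im| < h} ∩ {z : ℂ | ‖φ z‖ < ρ}) := by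
      have := hφd.continuousOn.norm.isOpen_inter_preimage (strip_open h) (isOpen_Iio (a := ρ))
      exact this
    have hKU : ((fun t : ℝ => (t : ℂ)) '' Icc 0 1) ⊆
        ({z : ℂ | |z.im| < h} ∩ {z : ℂ | ‖φ z‖ < ρ}) := by
      rintro _ ⟨t, _, rfl⟩
      refine ⟨?_, hφt t⟩
      simpa using hh0
    obtain ⟨δ, hδ0, hδ⟩ := hK.exists_thickening_subset_open hU hKU
    refine ⟨min δ h, lt_min hδ0 hh0, min_le_right _ _, fun z hz => ?_⟩
    -- reduce to real part in [0,1)
    have hper : ∀ (m : ℤ) (y : ℂ), φ (y + m) = φ y := by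
      intro m y
      induction m using Int.induction_on with
      | zero => simp
      | succ i ih =>
        rw [← ih]
        have e : y + ((i + 1 : ℤ) : ℂ) = (y + (i : ℤ)) + 1 := by push_cast; ring
        rw [e, hφ1]
      | pred i ih =>
        rw [← ih, ← hφ1]
        congr 1
        push_cast; ring
    have e1 : φ z = φ (z - (⌊z.re⌋ : ℤ)) := by
      have := hper (⌊z.re⌋) (z - (⌊z.re⌋ : ℤ))
      rw [sub_add_cancel] at this
      exact this
    rw [e1]
    have hmem : z - ((⌊z.re⌋ : ℤ) : ℂ) ∈ Metric.thickening δ ((fun t : ℝ => (t : ℂ)) '' Icc 0 1) := by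
      rw [Metric.mem_thickening_iff]
      refine ⟨((Int.fract z.re : ℝ) : ℂ), ⟨Int.fract z.re, ⟨Int.fract_nonneg _,
        (Int.fract_lt_one _).le⟩, rfl⟩, ?_⟩
      have e2 : z - ((⌊z.re⌋ : ℤ) : ℂ) - ((Int.fract z.re : ℝ) : ℂ) = (z.im : ℂ) * Complex.I := by
        apply Complex.ext
        · simp only [Complex.sub_re, Complex.intCast_re, Complex.ofReal_re, Complex.mul_re,
            Complex.I_re, Complex.I_im, Complex.ofReal_im]
          rw [Int.self_sub_floor]; ring
        · simp
      rw [dist_eq_norm, e2, norm_mul, Complex.norm_I, mul_one, Complex.norm_real,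
        Real.norm_eq_abs]
      exact lt_of_lt_of_le hz (min_le_left _ _)
    exact (hδ hmem).2
  obtain ⟨h', hh', hle, hb⟩ := hthin
  refine ⟨h', hh', φ, hφd.mono (fun z hz => lt_of_lt_of_le hz hle), fun z _ => hφ1 z,
    fun z z' hz hz' => hinj z z' (lt_of_lt_of_le hz hle) (lt_of_lt_of_le hz' hle),
    fun z hz => hφH z (lt_of_lt_of_le hz hle), hb⟩

end Pool.Agent.Y318.HR
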