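import Pool.Agent.Helper649.Herman

/-!
# Minimal periods and uniqueness of Fourier coefficients
-/

set_option autoImplicit false

namespace Pool.Agent.Y318.HR

open Pool.Agent.Helper649 Filter Topology MeasureTheory Set

/-- the periods of a function -/
def periods (w : ℝ → ℂ) : AddSubgroup ℝ where
  carrier := {p | ∀ t, w (t + p) = w t}
  zero_mem' := fun t => by rw [add_zero]
  add_mem' := fun {p q} hp hq t => by rw [← add_assoc, hq, hp]
  neg_mem' := fun {p} hp t => by
    have := hp (t + -p)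
    rw [neg_add_cancel_right] at this
    exact this.symm

lemma mem_periods {w : ℝ → ℂ} {p : ℝ} : p ∈ periods w ↔ ∀ t, w (t + p) = w t := Iff.rfl

/-- the unperturbed solution with minimal period one -/
theorem exists_min : ∃ w : ℝ → ℂ, (∀ t, HasDerivAt w (w (-t) ^ 2) t) ∧ (∀ t, w (t + 1) = w t) ∧
    w 0 ≠ 0 ∧ ∀ p, (∀ t, w (t + p) = w t) → ∃ m : ℤ, p = m := by
  obtain ⟨w, hw, hper, hw0⟩ := exists_w0
  have hcont : Continuous w := continuous_iff_continuousAt.2 fun t => (hw t).continuousAt
  rcases AddSubgroup.dense_or_cyclic (periods w) with hd | ⟨a, ha⟩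
  · exfalso
    have hcl : IsClosed {p : ℝ | w p = w 0} := isClosed_eq hcont continuous_const
    have hsub : ((periods w : AddSubgroup ℝ) : Set ℝ) ⊆ {p : ℝ | w p = w 0} := by
      intro p hp
      have := hp 0
      rw [zero_add] at this
      exact this
    have hall : ∀ t, w t = w 0 := by
      intro t
      have : t ∈ closure ((periods w : AddSubgroup ℝ) : Set ℝ) := hd t
      exact (closure_minimal hsub hcl) this
    have h1 : HasDerivAt w 0 0 := by
      have : w = fun _ => w 0 := funext hall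
      rw [this]
      exact hasDerivAt_const _ _
    have h2 := (hw 0).unique h1
    rw [neg_zero] at h2
    exact hw0 (pow_eq_zero_iff (two_ne_zero) |>.mp h2)
  · have hmem : ∀ p, (∀ t, w (t + p) = w t) ↔ ∃ m : ℤ, m • a = p := by
      intro p
      rw [← mem_periods, ha, AddSubgroup.mem_closure_singleton]
    have ha0 : a ≠ 0 := by
      intro h0
      obtain ⟨m, hm⟩ := (hmem 1).1 hper
      rw [h0, smul_zero] at hm
      exact zero_ne_one hm
    have hac : (a : ℂ) ≠ 0 := by exact_mod_cast ha0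
    have haper : ∀ t, w (t + a) = w t := (hmem a).2 ⟨1, one_smul _ _⟩
    refine ⟨fun t => a * w (a * t), fun t => ?_, fun t => ?_, ?_, fun p hp => ?_⟩
    · have h1 : HasDerivAt (fun t : ℝ => a * t) a t := by
        simpa using (hasDerivAt_id t).const_mul a
      have h2 := ((hw (a * t)).scomp t h1).const_mul (a : ℂ)
      refine h2.congr_deriv ?_
      show (a : ℂ) * (a • w (-(a * t)) ^ 2) = (a * w (a * -t)) ^ 2
      rw [Complex.real_smul, mul_neg]
      ring
    · simp only
      rw [mul_add, mul_one, haper]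
    · simp only [mul_zero]
      exact mul_ne_zero hac hw0
    · obtain ⟨m, hm⟩ := (hmem (a * p)).1 (fun t => by
        have := hp (t / a)
        simp only at this
        have h1 := mul_left_cancel₀ hac this
        rw [mul_add, mul_div_cancel₀ _ ha0] at h1
        exact h1)
      refine ⟨m, ?_⟩
      rw [zsmul_eq_mul, mul_comm] at hm
      exact (mul_left_cancel₀ ha0 hm).symm

/-- a gap for shifts away from the integers -/
lemma exists_gap {w : ℝ → ℂ} (hc : Continuous w)
    (hmin : ∀ p, (∀ t, w (t + p) = w t) → ∃ m : ℤ, p = m) :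
    ∃ δ : ℝ, 0 < δ ∧ ∀ p ∈ Icc (1 / 3 : ℝ) (2 / 3), ∃ t, δ ≤ ‖w (t + p) - w t‖ := by
  by_contra hcon
  push Not at hcon
  have h1 : ∀ n : ℕ, ∃ p ∈ Icc (1 / 3 : ℝ) (2 / 3), ∀ t, ‖w (t + p) - w t‖ < 1 / ((n : ℝ) + 1) :=
    fun n => hcon _ (by positivity)
  choose p hp hpt using h1
  obtain ⟨q, hq, φ, hφ, hlim⟩ := isCompact_Icc.tendsto_subseq hp
  have hqq : ∀ t, w (t + q) = w t := by
    intro t
    have a1 : Tendsto (fun n => ‖w (t + p (φ n)) - w t‖) atTop (𝓝 ‖w (t + q) - w t‖) := by
      have := ((hc.tendsto (t + q)).comp (hlim.const_add t)).sub_const (w t)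
      exact this.norm
    have a2 : Tendsto (fun n : ℕ => 1 / ((φ n : ℝ) + 1)) atTop (𝓝 0) :=
      tendsto_one_div_add_atTop_nhds_zero_nat.comp hφ.tendsto_atTop
    have a3 : ‖w (t + q) - w t‖ ≤ 0 := le_of_tendsto_of_tendsto a1 a2
      (Eventually.of_forall fun n => (hpt (φ n) t).le)
    exact sub_eq_zero.1 (norm_le_zero_iff.1 a3)
  obtain ⟨m, hm⟩ := hmin q hqq
  rw [hm] at hq
  have b1 : (0 : ℝ) < m := lt_of_lt_of_le (by norm_num) hq.1
  have b2 : (m : ℝ) < 1 := lt_of_le_of_lt hq.2 (by norm_num)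
  have b3 : (0 : ℤ) < m := by exact_mod_cast b1
  have b4 : m < (1 : ℤ) := by exact_mod_cast b2
  omega

/-- a function close to one with minimal period one has minimal period one -/
lemma min_of_close {w w0 : ℝ → ℂ} {δ η : ℝ}
    (hgap : ∀ p ∈ Icc (1 / 3 : ℝ) (2 / 3), ∃ t, δ ≤ ‖w0 (t + p) - w0 t‖)
    (hη : 2 * η < δ) (hcl : ∀ t, ‖w t - w0 t‖ ≤ η) (hper : ∀ t, w (t + 1) = w t)
    {p : ℝ} (hp : ∀ t, w (t + p) = w t) : ∃ m : ℤ, p = m := by
  by_contra hcon
  have hno : ∀ q ∈ Icc (1 / 3 : ℝ) (2 / 3), q ∉ periods w := by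
    intro q hq hqw
    obtain ⟨t, ht⟩ := hgap q hq
    have h1 : w0 (t + q) - w0 t = (w t - w0 t) - (w (t + q) - w0 (t + q)) := by
      rw [hqw t]; ring
    have h2 : ‖w0 (t + q) - w0 t‖ ≤ η + η := by
      rw [h1]
      exact (norm_sub_le _ _).trans (add_le_add (hcl t) (hcl (t + q)))
    linarith
  have h1m : (1 : ℝ) ∈ periods w := hper
  have hpm : p ∈ periods w := hp
  have hint : ∀ m : ℤ, (m : ℝ) ∈ periods w := by
    intro m
    have := (periods w).zsmul_mem h1m m
    simpa using this
  -- reduction to the case of small positive numbers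
  have key : ∀ x : ℝ, 0 < x → x ≤ 1 / 2 → x ∉ periods w := by
    intro x hx0 hx1 hxm
    obtain ⟨n, hn⟩ : ∃ n : ℕ, n = ⌈1 / (3 * x)⌉₊ := ⟨_, rfl⟩
    have h3 : 1 / (3 * x) ≤ n := by rw [hn]; exact Nat.le_ceil _
    have h4 : (n : ℝ) < 1 / (3 * x) + 1 := by rw [hn]; exact Nat.ceil_lt_add_one (by positivity)
    have h5 : (1 : ℝ) / 3 ≤ n * x := by
      rw [div_le_iff₀ (by positivity)] at h3
      linarith
    by_cases hxs : x ≤ 1 / 3
    · have h6 : n * x ≤ 2 / 3 := by
        have : (n : ℝ) * x ≤ (1 / (3 * x) + 1) * x := by gcongr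
        have e : (1 / (3 * x) + 1) * x = 1 / 3 + x := by field_simp
        linarith
      refine hno (n * x) ⟨h5, h6⟩ ?_
      have := (periods w).nsmul_mem hxm n
      simpa using this
    · push Not at hxs
      exact hno x ⟨hxs.le, by linarith⟩ hxm
  have hfr : Int.fract p ∈ periods w := by
    unfold Int.fract
    exact (periods w).sub_mem hpm (hint _)
  have hf0 : 0 < Int.fract p := by
    rcases (Int.fract_nonneg p).lt_or_eq with h | h
    · exact h
    · exfalso
      apply hcon
      refine ⟨⌊p⌋, ?_⟩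
      have := Int.self_sub_floor p
      rw [← h] at this
      linarith
  rcases le_or_gt (Int.fract p) (1 / 2) with h | h
  · exact key _ hf0 h hfr
  · have h1 := Int.fract_lt_one p
    refine key (1 - Int.fract p) (by linarith) (by linarith) ?_
    exact (periods w).sub_mem h1m hfr

lemma ch_integral (m : ℤ) : ∫ t in (0 : ℝ)..1, ch m t = if m = 0 then 1 else 0 := by
  split_ifs with h
  · subst h
    simp [ch_zero]
  · have hm : (2 * Real.pi * Complex.I * m : ℂ) ≠ 0 := by
      have h1 : (m : ℂ) ≠ 0 := by exact_mod_cast h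
      have h2 : (Real.pi : ℂ) ≠ 0 := by exact_mod_cast Real.pi_ne_zero
      exact mul_ne_zero (mul_ne_zero (mul_ne_zero two_ne_zero h2) Complex.I_ne_zero) h1
    have hd : ∀ t ∈ uIcc (0 : ℝ) 1,
        HasDerivAt (fun t => (2 * Real.pi * Complex.I * m : ℂ)⁻¹ * ch m t) (ch m t) t := by
      intro t _
      refine ((ch_hasDerivAt m t).const_mul _).congr_deriv ?_
      rw [← mul_assoc, inv_mul_cancel₀ hm, one_mul]
    have hcont : Continuous (fun t => ch m t) :=
      continuous_iff_continuousAt.2 fun t => (ch_hasDerivAt m t).continuousAt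
    rw [intervalIntegral.integral_eq_sub_of_hasDerivAt hd (hcont.intervalIntegrable _ _)]
    have e1 : ch m 1 = 1 := by simpa using ch_int m 1
    have e0 : ch m 0 = 1 := by simpa using ch_int m 0
    rw [e1, e0, sub_self]

/-- uniqueness of coefficients -/
theorem coef_unique {c : ℤ → ℂ} (hc : Summable (fun k => ‖c k‖))
    (h0 : ∀ t : ℝ, ∑' k : ℤ, c k * ch k t = 0) (j : ℤ) : c j = 0 := by
  have hcont : ∀ m : ℤ, Continuous (fun t => ch m t) := fun m =>
    continuous_iff_continuousAt.2 fun t => (ch_hasDerivAt m t).continuousAt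
  set F : ℤ → ℝ → ℂ := fun k t => c k * ch (k - j) t with hF
  have hFc : ∀ k, Continuous (F k) := fun k => continuous_const.mul (hcont _)
  have hint : ∀ k, Integrable (F k) (volume.restrict (Ioc (0 : ℝ) 1)) := by
    intro k
    have := (hFc k).intervalIntegrable (μ := volume) 0 1
    exact this.1
  have hnorm : ∀ k, ∫ t, ‖F k t‖ ∂(volume.restrict (Ioc (0 : ℝ) 1)) = ‖c k‖ := by
    intro k
    simp only [hF, norm_mul, norm_ch, mul_one]
    simp
  have hs : Summable (fun k => ∫ t, ‖F k t‖ ∂(volume.restrict (Ioc (0 : ℝ) 1))) := by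
    simp only [hnorm]
    exact hc
  have h1 := hasSum_integral_of_summable_integral_norm hint hs
  have h2 : ∀ t : ℝ, ∑' k : ℤ, F k t = 0 := by
    intro t
    have e : ∀ k : ℤ, F k t = (c k * ch k t) * ch (-j) t := by
      intro k
      simp only [hF]
      rw [sub_eq_add_neg, ch_add_int, mul_assoc]
    simp only [e]
    rw [tsum_mul_right, h0, zero_mul]
  have h3 : ∀ k : ℤ, ∫ t, F k t ∂(volume.restrict (Ioc (0 : ℝ) 1)) = if k = j then c j else 0 := by
    intro k
    have e := intervalIntegral.integral_of_le (μ := volume) (f := F k) (zero_le_one (α := ℝ))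
    rw [← e]
    simp only [hF]
    rw [intervalIntegral.integral_const_mul, ch_integral]
    by_cases hkj : k = j
    · subst hkj; simp
    · have : ¬ (k - j = 0) := by omega
      simp [hkj, this]
  simp only [h2, integral_zero, h3] at h1
  have h4 := hasSum_ite_eq j (c j)
  exact h4.unique h1

end Pool.Agent.Y318.HR
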